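import Mathlib

/-!
# MP_77a7aa_co — a Hamiltonian path of `Q_9` whose consecutive flips are adjacent coordinates
-/

namespace Pool.Agent.Results.MP_77a7aa_co.DimensionNine

/-- `v 0, v 1, …, v (2 ^ n - 1)` is a Hamiltonian path of the hypercube `Q_n` (vertex set
`Fin n → Bool`, coordinates `0, …, n - 1`) with flip sequence `s 0, s 1, …, s (2 ^ n - 2)`: every
vertex is visited exactly once, and `v (i + 1)` arises from `v i` by flipping the coordinate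
`s i`. -/
def IsHamiltonianPath (n : ℕ) (v : ℕ → Fin n → Bool) (s : ℕ → Fin n) : Prop :=
  (∀ x : Fin n → Bool, ∃! i : ℕ, i < 2 ^ n ∧ v i = x) ∧
    ∀ i : ℕ, i + 1 < 2 ^ n → v (i + 1) = Function.update (v i) (s i) (!(v i (s i)))

/-- Any two consecutive entries of the flip sequence `s 0, …, s (2 ^ n - 2)` differ by `1` or
`-1`. -/
def ConsecutiveFlipsAdjacent (n : ℕ) (s : ℕ → Fin n) : Prop :=
  ∀ i : ℕ, i + 2 < 2 ^ n → (s (i + 1) : ℕ) = (s i : ℕ) + 1 ∨ (s i : ℕ) = (s (i + 1) : ℕ) + 1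

/-- the flip sequence (coordinates are `0, …, 8`) -/
def F : List ℕ := [5, 6, 5, 4, 5, 6, 7, 6, 5, 4, 5, 6, 5, 4, 3, 2, 3, 4, 5, 4, 3, 2, 1, 2, 3, 4, 5, 4, 3, 4, 5, 6, 5, 4, 3, 4, 5, 4, 3, 2, 1, 2, 3, 4, 5, 4, 3, 2, 1, 0, 1, 2, 3, 4, 5, 4, 3, 2, 1, 2, 3, 4, 5, 4, 3, 4, 5, 6, 5, 4, 3, 4, 5, 4, 3, 2, 1, 2, 3, 4, 5, 4, 3, 2, 3, 4, 5, 6, 5, 4, 5, 6, 7, 6, 5, 4, 5, 6, 5, 4, 3, 4, 5, 6, 7, 6, 5, 6, 7, 8, 7, 6, 5, 6, 7, 6, 5, 4, 3, 4, 5, 6, 5, 4, 5, 6, 7, 6, 5, 4, 5, 6, 5, 4, 3, 2, 3, 4, 5, 4, 3, 2, 1, 2, 3, 4, 5, 4, 3, 4, 5, 6, 5, 4, 3, 4, 5, 4, 3, 2, 1, 2, 3, 4, 5, 4, 3, 2, 1, 0, 1, 2, 3, 4, 5, 4, 3, 2, 1, 2, 3, 4, 5, 4, 3, 4, 5, 6, 5, 4, 3, 4, 5, 4, 3, 2, 1, 2, 3, 4, 5, 4, 3, 2, 3, 4, 5, 6, 5, 4, 5, 6, 7, 6, 5, 4, 5, 6, 5, 4, 3, 4, 5, 6, 7, 6, 5, 6, 7, 8, 7, 6, 5, 6, 7, 6, 5, 4, 3, 2, 3, 4, 5, 6, 7, 6, 5, 6, 7, 8, 7, 6, 5, 6, 7, 6, 5, 4, 3, 4, 5, 4, 3, 2, 1, 0, 1, 2, 3, 4, 5, 4, 3, 4, 5,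 6, 7, 6, 5, 6, 7, 8, 7, 6, 5, 6, 7, 6, 5, 4, 3, 4, 5, 4, 3, 2, 1, 0, 1, 2, 3, 4, 5, 6, 5, 4, 3, 2, 1, 0, 1, 2, 3, 4, 5, 4, 3, 2, 1, 2, 3, 4, 5, 4, 3, 4, 5, 6, 5, 4, 3, 4, 5, 4, 3, 2, 3, 4, 5, 6, 5, 4, 5, 6, 7, 6, 5, 4, 5, 6, 5, 4, 3, 4, 5, 6, 7, 6, 5, 6, 7, 8, 7, 6, 5, 6, 7, 6, 5, 4, 3, 4, 5, 6, 5, 4, 5, 6, 7, 6, 5, 4, 5, 6, 5, 4, 3, 2, 3, 4, 5, 4, 3, 4, 5, 6, 5, 4, 3, 4, 5, 4, 3, 2, 1, 2, 3, 4, 5, 4, 3, 2, 1, 0, 1, 2, 3, 4, 5, 4, 3, 2, 1, 2, 3, 4, 5, 4, 3, 4, 5, 6, 5, 4, 3, 4, 5, 4, 3, 2, 3, 4, 5, 6, 5, 4, 5, 6, 7, 6, 5, 4, 5, 6, 5, 4, 3, 4, 5, 6, 7, 6, 5, 6, 7, 8, 7, 6, 5, 6, 7, 6, 5, 4, 3, 4, 5, 6, 5, 4, 5, 6, 7, 6, 5, 4, 5, 6, 5, 4, 3, 2, 3, 4, 5, 4, 3, 4, 5, 6, 5, 4, 3, 4, 5, 4, 3, 2, 1, 2, 3]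

/-- the visited vertices in binary encoding -/
def P : List ℕ := [0, 32, 96, 64, 80, 112, 48, 176, 240, 208, 192, 224, 160, 128, 144, 152, 156, 148, 132, 164, 180, 188, 184, 186, 190, 182, 166, 134, 150, 158, 142, 174, 238, 206, 222, 214, 198, 230, 246, 254, 250, 248, 252, 244, 228, 196, 212, 220, 216, 218, 219, 217, 221, 213, 197, 229, 245, 253, 249, 251, 255, 247, 231, 199, 215, 223, 207, 239, 175, 143, 159, 151, 135, 167, 183, 191, 187, 185, 189, 181, 165, 133, 149, 157, 153, 145, 129, 161, 225, 193, 209, 241, 177, 49, 113, 81, 65, 97, 33, 1, 17, 25, 9, 41, 105, 233, 169, 137, 201, 73, 329, 457, 393, 425, 489, 361, 297, 265, 281, 273, 257, 289, 353, 321, 337, 369, 305, 433, 497, 465, 449, 481, 417, 385, 401, 409, 413, 405, 389, 421, 437, 445, 441, 443, 447, 439, 423, 391, 407, 415, 399, 431, 495, 463, 479, 471, 455, 487, 503, 511, 507, 505, 509, 501, 485, 453, 469, 477, 473, 475,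 474, 472, 476, 468, 452, 484, 500, 508, 504, 506, 510, 502, 486, 454, 470, 478, 462, 494, 430, 398, 414, 406, 390, 422, 438, 446, 442, 440, 444, 436, 420, 388, 404, 412, 408, 400, 384, 416, 480, 448, 464, 496, 432, 304, 368, 336, 320, 352, 288, 256, 272, 280, 264, 296, 360, 488, 424, 392, 456, 328, 72, 200, 136, 168, 232, 104, 40, 8, 24, 16, 20, 28, 12, 44, 108, 236, 172, 140, 204, 76, 332, 460, 396, 428, 492, 364, 300, 268, 284, 276, 260, 292, 308, 316, 312, 314, 315, 313, 317, 309, 293, 261, 277, 285, 269, 301, 365, 493, 429, 397, 461, 333, 77, 205, 141, 173, 237, 109, 45, 13, 29, 21, 5, 37, 53, 61, 57, 59, 58, 56, 60, 52, 36, 4, 68, 100, 116, 124, 120, 122, 123, 121, 125, 117, 101, 69, 85, 93, 89, 91, 95, 87, 71, 103, 119, 127, 111, 79, 15, 47, 63, 55, 39, 7, 23, 31, 27, 19, 3, 35, 99, 67, 83, 115, 51, 179, 243, 211, 195, 227, 163, 131, 147, 155, 139, 171, 235, 107, 43, 11, 75, 203,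 459, 331, 267, 299, 363, 491, 427, 395, 411, 403, 387, 419, 483, 451, 467, 499, 435, 307, 371, 339, 323, 355, 291, 259, 275, 283, 287, 279, 263, 295, 311, 319, 303, 271, 335, 367, 383, 375, 359, 327, 343, 351, 347, 345, 349, 341, 325, 357, 373, 381, 377, 379, 378, 376, 380, 372, 356, 324, 340, 348, 344, 346, 350, 342, 326, 358, 374, 382, 366, 334, 270, 302, 318, 310, 294, 262, 278, 286, 282, 274, 258, 290, 354, 322, 338, 370, 306, 434, 498, 466, 450, 482, 418, 386, 402, 410, 394, 426, 490, 362, 298, 266, 330, 458, 202, 74, 10, 42, 106, 234, 170, 138, 154, 146, 130, 162, 226, 194, 210, 242, 178, 50, 114, 82, 66, 98, 34, 2, 18, 26, 30, 22, 6, 38, 54, 62, 46, 14, 78, 110, 126, 118, 102, 70, 86, 94, 90, 88, 92, 84]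

/-- the inverse permutation of `P` -/
def I : List ℕ := [0, 99, 489, 338, 303, 292, 494, 333, 237, 102, 468, 359, 242, 289, 499, 328, 239, 100, 490, 337, 240, 291, 493, 334, 238, 101, 491, 336, 241, 290, 492, 335, 1, 98, 488, 339, 302, 293, 495, 332, 236, 103, 469, 358, 243, 288, 498, 329, 6, 93, 483, 344, 301, 294, 496, 331, 299, 296, 298, 297, 300, 295, 497, 330, 3, 96, 486, 341, 304, 315, 505, 322, 230, 109, 467, 360, 249, 282, 500, 327, 4, 95, 485, 342, 511, 316, 506, 321, 509, 318, 508, 319, 510, 317, 507, 320, 2, 97, 487, 340, 305, 314, 504, 323, 235, 104, 470, 357, 244, 287, 501, 326, 5, 94, 484, 343, 306, 313, 503, 324, 308, 311, 309, 310, 307, 312, 502, 325, 13, 86, 476, 351, 18, 81, 27, 72, 232, 107, 473, 354, 247, 284, 30, 69, 14, 85, 475, 352, 17, 82, 28, 71, 15, 84, 474, 353, 16, 83, 29, 70, 12, 87, 477, 350, 19, 80, 26, 73, 233, 106, 472, 355, 246, 285, 31, 68, 7, 92,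 482, 345, 20, 79, 25, 74, 22, 77, 23, 76, 21, 78, 24, 75, 10, 89, 479, 348, 45, 54, 36, 63, 231, 108, 466, 361, 248, 283, 33, 66, 9, 90, 480, 347, 46, 53, 35, 64, 48, 51, 49, 50, 47, 52, 34, 65, 11, 88, 478, 349, 44, 55, 37, 62, 234, 105, 471, 356, 245, 286, 32, 67, 8, 91, 481, 346, 43, 56, 38, 61, 41, 58, 40, 59, 42, 57, 39, 60, 219, 120, 442, 385, 260, 271, 437, 390, 222, 117, 463, 364, 257, 274, 432, 395, 220, 119, 441, 386, 259, 272, 438, 389, 221, 118, 440, 387, 258, 273, 439, 388, 218, 121, 443, 384, 261, 270, 436, 391, 223, 116, 462, 365, 256, 275, 433, 394, 213, 126, 448, 379, 262, 269, 435, 392, 264, 267, 265, 266, 263, 268, 434, 393, 216, 123, 445, 382, 419, 408, 426, 401, 229, 110, 464, 363, 250, 281, 431, 396, 215, 124, 446, 381, 420, 407, 425, 402, 422, 405, 423, 404, 421, 406, 424, 403, 217, 122, 444, 383, 418, 409, 427, 400, 224, 115, 461, 366, 255, 276, 430, 397, 214,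 125, 447, 380, 417, 410, 428, 399, 415, 412, 414, 413, 416, 411, 429, 398, 206, 133, 455, 372, 201, 138, 192, 147, 227, 112, 458, 369, 252, 279, 189, 150, 205, 134, 456, 371, 202, 137, 191, 148, 204, 135, 457, 370, 203, 136, 190, 149, 207, 132, 454, 373, 200, 139, 193, 146, 226, 113, 459, 368, 253, 278, 188, 151, 212, 127, 449, 378, 199, 140, 194, 145, 197, 142, 196, 143, 198, 141, 195, 144, 209, 130, 452, 375, 174, 165, 183, 156, 228, 111, 465, 362, 251, 280, 186, 153, 210, 129, 451, 376, 173, 166, 184, 155, 171, 168, 170, 169, 172, 167, 185, 154, 208, 131, 453, 374, 175, 164, 182, 157, 225, 114, 460, 367, 254, 277, 187, 152, 211, 128, 450, 377, 176, 163, 181, 158, 178, 161, 179, 160, 177, 162, 180, 159]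

theorem check_P : ∀ i : ℕ, i < 512 → P.getD i 0 < 512 ∧ I.getD (P.getD i 0) 0 = i := by
  decide +kernel

theorem check_I : ∀ x : ℕ, x < 512 → I.getD x 0 < 512 ∧ P.getD (I.getD x 0) 0 = x := by
  decide +kernel

theorem check_step : ∀ i : ℕ, i < 511 →
    F.getD i 0 < 9 ∧ P.getD (i + 1) 0 = P.getD i 0 ^^^ 2 ^ F.getD i 0 := by
  decide +kernel

theorem check_adj : ∀ i : ℕ, i < 510 →
    (F.getD (i + 1) 0 = F.getD i 0 + 1 ∨ F.getD i 0 = F.getD (i + 1) 0 + 1) := by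
  decide +kernel

/-- the vertices of the path -/
def v (i : ℕ) : Fin 9 → Bool := fun j => (P.getD i 0).testBit j

/-- the flips of the path -/
def s (i : ℕ) : Fin 9 := if h : F.getD i 0 < 9 then ⟨F.getD i 0, h⟩ else 0

theorem s_val {i : ℕ} (hi : i < 511) : (s i : ℕ) = F.getD i 0 := by
  unfold s
  rw [dif_pos (check_step i hi).1]

/-- **Theorem.** The hypercube `Q_9` has a Hamiltonian path any two consecutive flips of which
are adjacent coordinates. -/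
theorem result : ∃ (v : ℕ → Fin 9 → Bool) (s : ℕ → Fin 9),
    IsHamiltonianPath 9 v s ∧ ConsecutiveFlipsAdjacent 9 s := by
  refine ⟨v, s, ⟨?_, ?_⟩, ?_⟩
  · intro x
    have hx : Nat.ofBits x < 512 := Nat.ofBits_lt_two_pow x
    refine ⟨I.getD (Nat.ofBits x) 0, ⟨(check_I _ hx).1, ?_⟩, ?_⟩
    · funext j
      show (P.getD (I.getD (Nat.ofBits x) 0) 0).testBit j = x j
      rw [(check_I _ hx).2, Nat.testBit_ofBits_lt _ _ j.2]
    · rintro i ⟨hi, hvi⟩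
      have h512 : i < 512 := hi
      have hP : P.getD i 0 = Nat.ofBits x := by
        apply Nat.eq_of_testBit_eq
        intro j
        by_cases hj : j < 9
        · rw [Nat.testBit_ofBits_lt _ _ hj, ← hvi]
          rfl
        · have h9 : 512 ≤ 2 ^ j := by
            calc 512 = 2 ^ 9 := by norm_num
              _ ≤ 2 ^ j := Nat.pow_le_pow_right (by norm_num) (by omega)
          rw [Nat.testBit_lt_two_pow (lt_of_lt_of_le (check_P i h512).1 h9),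
            Nat.testBit_lt_two_pow (lt_of_lt_of_le hx h9)]
      rw [← hP, (check_P i h512).2]
  · intro i hi
    have hi' : i < 511 := by
      have : i + 1 < 512 := hi
      omega
    funext j
    show (P.getD (i + 1) 0).testBit j = _
    rw [(check_step i hi').2, Nat.testBit_xor, Nat.testBit_two_pow, ← s_val hi']
    by_cases hj : j = s i
    · subst hj
      rw [Function.update_self]
      have e : v i (s i) = (P.getD i 0).testBit (s i) := rfl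
      rw [e]
      simp
    · rw [Function.update_of_ne hj]
      have : ¬ ((s i : ℕ) = (j : ℕ)) := fun h => hj (Fin.ext h.symm)
      have e : v i j = (P.getD i 0).testBit j := rfl
      rw [e]
      simp [this]
  · intro i hi
    have hi' : i < 510 := by
      have : i + 2 < 512 := hi
      omega
    rw [s_val (by omega), s_val (by omega)]
    exact check_adj i hi'

end Pool.Agent.Results.MP_77a7aa_co.DimensionNine
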